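import Mathlib
import Pool.Agent.Lib.lead.ProjAlg

namespace Pool.Agent.Results.MP_3db952_lc.NoUniversal

open Set Pool.Agent.Lib.lead.ProjAlg

theorem result : ¬ ∃ U : Set (Set (ℝ × ℝ)), IsProj U ∧ U.Countable ∧
    ∀ A : Set (Set (ℝ × ℝ)), IsProj A → A.Countable →
      ∃ B : Set (Set (ℝ × ℝ)), B ⊆ U ∧ IsProj B ∧ ∃ φ, IsIso φ A B := by
  rintro ⟨U, _, hc, h⟩
  haveI := Tm.countable Unit
  have key : ∀ T : Set ℕ, ∃ B : Set (Set (ℝ × ℝ)), B ⊆ U ∧ IsProj B ∧
      ∃ φ, IsIso φ (range (ev (fun _ : Unit => STs T))) B :=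
    fun T => h _ (range_proj _) (countable_range _)
  choose B hB _ φ hφ using key
  have m : ∀ T, STs T ∈ range (ev (fun _ : Unit => STs T)) := fun T => ⟨.var (), rfl⟩
  have hinj : Function.Injective (fun T : Set ℕ => (⟨φ T (STs T), hB T ((hφ T).bij.mapsTo (m T))⟩ : U)) := by
    intro T T' e
    exact determined (range_proj _) (range_proj _) (m T) (m T') (hφ T) (hφ T')
      (congrArg Subtype.val e)
  haveI := hc.to_subtype
  have : Countable (Set ℕ) := hinj.countable
  obtain ⟨f, hf⟩ := exists_surjective_nat (Set ℕ)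
  exact Function.cantor_surjective f hf

end Pool.Agent.Results.MP_3db952_lc.NoUniversal
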